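import Pool.Agent.Helper61.NW.Goals2

/-!
# Project NW+, packet DIH: line systems from a permutation which shifts the heights
-/

set_option autoImplicit false

namespace Pool.Agent.Helper64.NW

open Pool.Agent.Helper52.Wq2 Pool.Agent.Helper61.NW
open scoped Nat

universe u

theorem hz {Γ : Type u} {X : Γ → ℤ} {H : ℤ} {σ : Equiv.Perm Γ} (hσX : ∀ g, X (σ g) = X g + H)
    (k : ℤ) : ∀ g, X ((σ ^ k) g) = X g + k * H := by
  induction k using Int.induction_on with
  | zero => intro g; simp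
  | succ k ih =>
    intro g
    rw [zpow_add_one, Equiv.Perm.mul_apply, ih, hσX]
    ring
  | pred k ih =>
    intro g
    rw [zpow_sub_one, Equiv.Perm.mul_apply, ih]
    have h0 : σ (σ⁻¹ g) = g := σ.apply_symm_apply g
    have h1 := hσX (σ⁻¹ g)
    rw [h0] at h1
    rw [h1]
    ring

theorem fz {Γ : Type u} {σ : Equiv.Perm Γ} (f : Γ → Γ) (e : ℤ)
    (hf : ∀ x, f (σ x) = (σ ^ e) (f x)) (a : ℤ) : ∀ x, f ((σ ^ a) x) = (σ ^ (e * a)) (f x) := by
  induction a using Int.induction_on with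
  | zero => intro x; simp
  | succ k ih =>
    intro x
    rw [zpow_add_one, Equiv.Perm.mul_apply, ih, hf, ← Equiv.Perm.mul_apply, ← zpow_add]
    congr 2
    ring
  | pred k ih =>
    intro x
    rw [zpow_sub_one, Equiv.Perm.mul_apply, ih]
    have h0 : σ (σ⁻¹ x) = x := σ.apply_symm_apply x
    have h1 := hf (σ⁻¹ x)
    rw [h0] at h1
    rw [h1, ← Equiv.Perm.mul_apply, ← zpow_add]
    congr 2
    ring

theorem lsys_of {Γ : Type u} [Nonempty Γ] (G : SimpleGraph Γ) (hconn : Conn G Set.univ) (X : Γ → ℤ)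
    (H : ℤ) (hH : 0 < H) (σ : Equiv.Perm Γ) (hσX : ∀ g, X (σ g) = X g + H)
    (hσ : ∀ g, G.Adj g (σ g)) (hX : ∀ g g', G.Adj g g' → |X g - X g'| ≤ H)
    (hF : {g | 0 ≤ X g ∧ X g < H}.Finite) (m : ℕ) (hm : 0 < m) (c : G ≃g G)
    (hc : ∀ g, c g = (σ ^ m) g)
    (htr : ∀ g g' : Γ, ∃ (f : G ≃g G) (e : ℤ), (e = 1 ∨ e = -1) ∧
      (∀ x, f (σ x) = (σ ^ e) (f x)) ∧ ∃ k l : ℤ, f ((σ ^ k) g) = (σ ^ l) g')
    (n : ℕ) (hn : Nat.card {g | 0 ≤ X g ∧ X g < H} = n) :
    ∃ G' : SimpleGraph (ℤ × Fin n), Lsys n m G' ∧ Nonempty (G ≃g G') := by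
  classical
  have hFin : Finite {g | 0 ≤ X g ∧ X g < H} := hF
  obtain ⟨ι⟩ : Nonempty (Fin n ≃ {g | 0 ≤ X g ∧ X g < H}) :=
    ⟨(Finite.equivFinOfCardEq hn).symm⟩
  have hz' := hz hσX
  have hlow : ∀ g, ∃ f : {g | 0 ≤ X g ∧ X g < H}, (σ ^ (X g / H)) (f : Γ) = g := by
    intro g
    refine ⟨⟨(σ ^ (-(X g / H))) g, ?_⟩, ?_⟩
    · have h1 := Int.emod_nonneg (X g) hH.ne'
      have h2 := Int.emod_lt_of_pos (X g) hH
      have h3 := Int.emod_add_mul_ediv (X g) H
      have h4 : -(X g / H) * H = -(H * (X g / H)) := by ring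
      constructor <;> rw [hz', h4] <;> omega
    · rw [← Equiv.Perm.mul_apply, ← zpow_add, add_neg_cancel, zpow_zero]
      rfl
  let Ψ : ℤ × Fin n → Γ := fun v => (σ ^ v.1) (ι v.2 : Γ)
  have hbij : Function.Bijective Ψ := by
    constructor
    · rintro ⟨a, i⟩ ⟨b, j⟩ hab
      have hab' : (σ ^ a) (ι i : Γ) = (σ ^ b) (ι j : Γ) := hab
      have h1 : X ((σ ^ a) (ι i : Γ)) = X ((σ ^ b) (ι j : Γ)) := by rw [hab']
      rw [hz', hz'] at h1
      obtain ⟨h2, h3⟩ := (ι i).2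
      obtain ⟨h4, h5⟩ := (ι j).2
      have h6 : a = b := by
        have e1 : a * H < (b + 1) * H := by linarith
        have e2 : b * H < (a + 1) * H := by linarith
        have e3 := lt_of_mul_lt_mul_right e1 hH.le
        have e4 := lt_of_mul_lt_mul_right e2 hH.le
        omega
      subst h6
      have h7 := (σ ^ a).injective hab'
      rw [ι.injective (Subtype.ext h7)]
    · intro g
      obtain ⟨f, hf⟩ := hlow g
      refine ⟨(X g / H, ι.symm f), ?_⟩
      change (σ ^ (X g / H)) (ι (ι.symm f) : Γ) = g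
      rw [Equiv.apply_symm_apply]
      exact hf
  let E : ℤ × Fin n ≃ Γ := Equiv.ofBijective Ψ hbij
  have hE : ∀ a i, E (a, i) = (σ ^ a) (ι i : Γ) := fun a i => rfl
  let I : G.comap E ≃g G := SimpleGraph.Iso.comap E G
  have hI : ∀ v, I v = E v := fun v => rfl
  have hadj : ∀ a b i j, (G.comap E).Adj (a, i) (b, j) ↔
      G.Adj ((σ ^ a) (ι i : Γ)) ((σ ^ b) (ι j : Γ)) := fun a b i j => Iff.rfl
  have hsymm : ∀ a i, E.symm ((σ ^ a) (ι i : Γ)) = (a, i) := by
    intro a i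
    rw [← hE, Equiv.symm_apply_apply]
  refine ⟨G.comap E, ?_, ⟨I.symm⟩⟩
  refine ⟨?_, hm, ?_, ?_, ?_, ?_, ?_⟩
  · obtain ⟨g⟩ := ‹Nonempty Γ›
    obtain ⟨f, -⟩ := hlow g
    have := (ι.symm f).2
    omega
  · intro a j
    rw [hadj, add_comm a 1, zpow_one_add, Equiv.Perm.mul_apply]
    exact hσ _
  · intro a b i j hab
    rw [hadj] at hab
    have h1 := hX _ _ hab
    rw [hz', hz'] at h1
    obtain ⟨h2, h3⟩ := (ι i).2
    obtain ⟨h4, h5⟩ := (ι j).2
    rw [abs_le] at h1 ⊢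
    have e1 : (a - b) * H < 2 * H := by linarith [h1.1, h1.2]
    have e2 : -2 * H < (a - b) * H := by linarith [h1.1, h1.2]
    have e3 := lt_of_mul_lt_mul_right e1 hH.le
    have e4 := lt_of_mul_lt_mul_right e2 hH.le
    constructor <;> omega
  · intro a b i j
    rw [hadj, hadj]
    have h1 : ∀ (a : ℤ) (x : Γ), (σ ^ (a + (m : ℤ))) x = c ((σ ^ a) x) := by
      intro a x
      rw [hc, add_comm, zpow_add, zpow_natCast, Equiv.Perm.mul_apply]
    rw [h1, h1, c.map_adj_iff]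
  · have h1 := Conn.image (G' := G.comap E) hconn (fun g => E.symm g) (by
      intro a _ b _ hab
      right
      change G.Adj (E (E.symm a)) (E (E.symm b))
      rw [Equiv.apply_symm_apply, Equiv.apply_symm_apply]
      exact hab)
    have h2 : (fun g => E.symm g) '' (Set.univ : Set Γ) = Set.univ := by
      rw [Set.image_univ]
      exact E.symm.surjective.range_eq
    rwa [h2] at h1
  · intro i j
    obtain ⟨f, e, he, hf, k, l, hkl⟩ := htr (ι i : Γ) (ι j : Γ)
    have hee : e * e = 1 := by rcases he with rfl | rfl <;> norm_num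
    have hfz := fz (fun x => f x) e hf
    let c' : Fin n → ℤ := fun k => (E.symm (f (ι k : Γ))).1
    let τ₀ : Fin n → Fin n := fun k => (E.symm (f (ι k : Γ))).2
    have hct : ∀ k, f (ι k : Γ) = (σ ^ c' k) (ι (τ₀ k) : Γ) := by
      intro k
      rw [← hE]
      change f (ι k : Γ) = E (E.symm (f (ι k : Γ)))
      rw [Equiv.apply_symm_apply]
    have hgen : ∀ a k, f ((σ ^ a) (ι k : Γ)) = (σ ^ (e * a + c' k)) (ι (τ₀ k) : Γ) := by
      intro a k
      have h1 : f ((σ ^ a) (ι k : Γ)) = (σ ^ (e * a)) (f (ι k : Γ)) := hfz a _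
      rw [h1, hct, ← Equiv.Perm.mul_apply, ← zpow_add]
    have hinj : Function.Injective τ₀ := by
      intro k k' hkk
      have h1 : f ((σ ^ (e * (c' k' - c' k))) (ι k : Γ)) = f (ι k' : Γ) := by
        rw [hgen, hct k', hkk]
        congr 2
        rw [← mul_assoc, hee]
        ring
      have h2 := f.injective h1
      have h3 : E (e * (c' k' - c' k), k) = E (0, k') := by
        rw [hE, hE, h2]
        simp
      exact congrArg Prod.snd (E.injective h3)
    let τ : Equiv.Perm (Fin n) := Equiv.ofBijective τ₀ (Finite.injective_iff_bijective.1 hinj)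
    refine ⟨I.trans (f.trans I.symm), τ, e, c', he, ?_, ?_⟩
    · rw [hgen] at hkl
      have h1 : E (e * k + c' i, τ₀ i) = E (l, j) := by rw [hE, hE]; exact hkl
      exact congrArg Prod.snd (E.injective h1)
    · intro a k
      change E.symm (f (E (a, k))) = (e * a + c' k, τ₀ k)
      rw [hE, hgen, hsymm]

end Pool.Agent.Helper64.NW
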